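import Pool.Agent.P8H56.FL.AmpC

/-!
# A uniform bound for the number of minimal models of all varieties with a common finite cover with a
given variety with a finitely generated ring of sections

Let `Y` be a normal projective variety with the function field `L`, and let `D 1, ..., D p` be
`ℚ`-Cartier divisors on `Y` (or b-divisors) with the coefficients `δ i P` of their pullbacks at the
prime divisors `P` over `Y`. Let `C` be a convex cone in `ℚ ^ p` and assume that the ring of the
sections of the integral combinations of the `D i` which are in `C` is finitely generated. Examples: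
* `C = ℚ ^ p` and `Y` a Mori dream space (a toric or spherical variety, a variety of Fano type, ...), or
  the product of a Mori dream space `Y 0` and of arbitrary varieties `Y j`, with the pullbacks `D i` of
  all divisors on `Y 0` and of one ample divisor on each `Y j`;
* `C` the cone of the nonnegative combinations, `Y` ANY smooth projective variety, and
  `D i = r (K_Y + Δ i)` for klt pairs `(Y, Δ i)` with big boundaries `Δ i` (Birkar, Cascini, Hacon and
  McKernan).

Let `X` be a normal projective variety of the same dimension, with the function field `K`, and `Z` a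
variety with finite surjective morphisms `Z → Y` and `Z → X` (the function field `M` of `Z` is a finite
extension of `L` and of `K`, Galois or not). Let `E i` be divisors on `X` with the coefficients
`δK i P` such that the pullbacks of `D i` and `E i` to `Z` are `ℚ`-linearly equivalent.

**The models.** Let `X --> X'` be a birational map whose inverse contracts no divisor (for instance
`X'` a minimal model of the smooth variety `X`) and `A` an ample `ℚ`-divisor on `X'` such that the
image on `X` of the pullback of `A` to a common resolution is `∑ i, lam i * E i`; let `α P` be the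
coefficients of the pullback of `A`. (If the `E i` span `Pic (X) ⊗ ℚ`, every ample divisor on `X'` is
`ℚ`-linearly equivalent to such an `A`.) Then the integral multiples `m * ∑ i, lam i * E i` and `m A`
have the same sections, and `m A` has no base points for suitable `m`: this is `IsSemiample`. If
`A - s A'` and `A' - s' A` are semiample for some `s, s' > 0` (`SameModel`), where `A` and `A'` are
such ample divisors on the models `X'` and `X''`, then `A` and `A'` have degree zero on the same
curves of a common resolution, so that `X'` and `X''` are isomorphic, compatibly with the maps from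
`X`.

**The theorem.** There is a number `B`, which depends only on `Y` and the `D i` and not on `X` and `Z`
(their degrees, their branch divisors, ...), such that among any `B + 1` models of `X` with ample
classes `∑ i, lam i * E i`, `lam` in `C`, two are isomorphic, compatibly with the maps from `X`. (If
the ring of sections has `n` homogeneous generators then `B = 2 ^ (2 ^ n)`.) So if `C = ℚ ^ p` and the
`E i` span `Pic (X) ⊗ ℚ` then the smooth projective variety `X` has at most `B` minimal models, all
terminal (`ℚ`-factorial or not) and all other birational contractions of `X` included.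
-/

set_option autoImplicit false

open FF Pool.Agent.W602.GT

namespace Pool.Agent.Results.MP_beb4a5_ag.FinitelyManyModels

section

variable {F : Type} [Field F] [Algebra ℂ F] {p : ℕ} (N : ℕ) (δ : Fin p → Place ℂ F → ℚ)

/-- `f` is a section of `∑ i, μ i * D i`: its order at every prime divisor `P` over the variety (every
divisorial place `P` of `F`) is at least minus the coefficient `∑ i, μ i * δ i P` of the pullback of
`∑ i, μ i * D i`, or `f = 0`. -/
def IsSection (μ : Fin p → ℤ) (f : F) : Prop :=
  ∀ P : Place ℂ F, Divisorial N P → f = 0 ∨ - ∑ i, (μ i : ℚ) * δ i P ≤ P.ord f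

/-- The ring of the sections of the integral combinations of the `D i` in the convex cone `C` (graded
by the group of the combinations) is finitely generated: there are finitely many sections `f b ≠ 0` of
combinations `g b` in `C` such that every section of a combination `μ` in `C` is a complex linear
combination of products of powers of the `f b` of total degree `μ`. -/
def FinitelyGenerated (C : PointedCone ℚ (Fin p → ℚ)) : Prop :=
  ∃ (n : ℕ) (g : Fin n → Fin p → ℤ) (f : Fin n → F),
    (∀ b, f b ≠ 0 ∧ (fun i => (g b i : ℚ)) ∈ C ∧ IsSection N δ (g b) (f b)) ∧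
    ∀ (μ : Fin p → ℤ), (fun i => (μ i : ℚ)) ∈ C → ∀ s : F, IsSection N δ μ s →
      s ∈ Submodule.span ℂ {t : F | ∃ e : Fin n → ℕ, (∀ i, ∑ b, (e b : ℤ) * g b i = μ i) ∧
        t = ∏ b, f b ^ e b}

/-- `α P` are the coefficients, at the prime divisors `P` over `X`, of the pullback from a model `X'`
of a semiample (for instance ample) divisor `A` with the combination `lam`: the integral combinations
`m * lam i` have the same sections as the divisor `m A`, which has the coefficients `m * α P`, and
for some `m ≥ 1` this divisor has no base points: it has for every `P` a section whose order at `P`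
is the minimal one. -/
def IsSemiample (lam : Fin p → ℚ) (α : Place ℂ F → ℚ) : Prop :=
  (∀ (m : ℕ) (ν : Fin p → ℤ), (∀ i, (m : ℚ) * lam i = ν i) → ∀ f : F,
    (IsSection N δ ν f ↔ ∀ P : Place ℂ F, Divisorial N P → f = 0 ∨ - (m * α P) ≤ P.ord f)) ∧
  ∃ m : ℕ, 1 ≤ m ∧ ∃ ν : Fin p → ℤ, (∀ i, (m : ℚ) * lam i = ν i) ∧
    ∀ P : Place ℂ F, Divisorial N P → ∃ f : F, f ≠ 0 ∧ IsSection N δ ν f ∧
      (P.ord f : ℚ) ≤ - (m * α P)

/-- The semiample divisors `A` and `A'` with the combinations `lam`, `lam'` and the coefficients `α`,
`α'` have the same ample model (the ample divisors `A` on `X'` and `A'` on `X''` define isomorphic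
models of `X`): `A - s A'` and `A' - s' A` are semiample for some `s, s' > 0`. -/
def SameModel (lam : Fin p → ℚ) (α : Place ℂ F → ℚ) (lam' : Fin p → ℚ) (α' : Place ℂ F → ℚ) :
    Prop :=
  (∃ s : ℚ, 0 < s ∧ IsSemiample N δ (fun i => lam i - s * lam' i) (fun P => α P - s * α' P)) ∧
  ∃ s : ℚ, 0 < s ∧ IsSemiample N δ (fun i => lam' i - s * lam i) (fun P => α' P - s * α P)

end

/-- `δ'` are the coefficients of the pullback to the finite cover (with the function field `K`) of the
divisor with the coefficients `δ` (over the function field `L`). -/
def IsPullback {L K : Type} [Field L] [Algebra ℂ L] [Field K] [Algebra ℂ K] [Algebra L K]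
    (N : ℕ) (δ : Place ℂ L → ℚ) (δ' : Place ℂ K → ℚ) : Prop :=
  ∀ (P : Place ℂ L) (Q : Place ℂ K) (e : ℕ), Divisorial N P → Over Q P e → δ' Q = e * δ P

/-- The divisors with the coefficients `δ1 i` and `δ2 i` are `ℚ`-linearly equivalent: they differ by
the divisor of a function `h i ≠ 0`, divided by `q`. -/
def LinearlyEquivalent {p : ℕ} {K : Type} [Field K] [Algebra ℂ K] (N : ℕ)
    (δ1 δ2 : Fin p → Place ℂ K → ℚ) : Prop :=
  ∃ (q : ℕ) (h : Fin p → K), 1 ≤ q ∧ (∀ i, h i ≠ 0) ∧
    ∀ (i : Fin p) (P : Place ℂ K), Divisorial N P → δ2 i P = δ1 i P + (P.ord (h i) : ℚ) / q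

theorem semi_iff {F : Type} [Field F] [Algebra ℂ F] {p : ℕ} (N : ℕ) (δ : Fin p → Place ℂ F → ℚ)
    (lam : Fin p → ℚ) (α : Place ℂ F → ℚ) :
    IsSemiample N δ lam α ↔ Pool.Agent.P8H56.FL.Mdl N δ 0 lam α 0 := by
  have h1 : ∀ (t : ℚ) (i : Fin p), lam i + t * (0 : Fin p → ℚ) i = lam i := fun t i => by simp
  have h2 : ∀ (t : ℚ) (P : Place ℂ F), α P + t * (0 : Place ℂ F → ℚ) P = α P := fun t P => by simp
  constructor
  · rintro ⟨h3, h4⟩
    refine ⟨1, one_pos, fun t _ _ => ?_⟩
    simp only [h1, h2]
    exact ⟨h3, h4⟩
  · rintro ⟨ε, hε, h⟩
    have h3 := h 0 le_rfl hε.le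
    simp only [h1, h2] at h3
    exact h3

/-- **A uniform bound for the number of models.** Let the `D i` with the coefficients `δ i` be finitely
many divisors over the function field `L`, and `C` a convex cone such that the ring of the sections of
the combinations in `C` is finitely generated. There is a number `B` such that for ALL function fields
`K` with a common finite extension `M` of `K` and `L` and all divisors `E i` over `K`, with the
coefficients `δK i`, whose pullbacks to `M` (`δM2`) are `ℚ`-linearly equivalent to the pullbacks of the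
`D i` (`δM1`): among any `B + 1` semiample (ample) classes on models of `K`, with combinations in `C`,
two have the same model. -/
theorem result (p N : ℕ) (L : Type) [Field L] [Algebra ℂ L] (δ : Fin p → Place ℂ L → ℚ)
    (C : PointedCone ℚ (Fin p → ℚ)) (hfg : FinitelyGenerated N δ C) :
    ∃ B : ℕ, ∀ (K M : Type) [Field K] [Algebra ℂ K] [Field M] [Algebra ℂ M]
      [Algebra L M] [IsScalarTower ℂ L M] [FiniteDimensional L M]
      [Algebra K M] [IsScalarTower ℂ K M] [FiniteDimensional K M]
      (δK : Fin p → Place ℂ K → ℚ) (δM1 δM2 : Fin p → Place ℂ M → ℚ),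
      (∀ i, IsPullback N (δ i) (δM1 i)) → (∀ i, IsPullback N (δK i) (δM2 i)) →
      LinearlyEquivalent N δM1 δM2 →
      ∀ (lam : Fin (B + 1) → Fin p → ℚ) (α : Fin (B + 1) → Place ℂ K → ℚ),
        (∀ j, lam j ∈ C ∧ IsSemiample N δK (lam j) (α j)) →
        ∃ j j' : Fin (B + 1), j < j' ∧ SameModel N δK (lam j) (α j) (lam j') (α j') := by
  obtain ⟨n, g, f, hgen⟩ := hfg
  refine ⟨Fintype.card (Finset (Finset (Fin n))), ?_⟩
  intro K M _ _ _ _ _ _ _ _ _ _ δK δM1 δM2 h1 h2 h3 lam α hα
  obtain ⟨q, h, hq, hh, hlin⟩ := h3
  obtain ⟨j, j', hlt, ⟨s, hs, h4⟩, s', hs', h5⟩ :=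
    Pool.Agent.P8H56.FL.amp_finC (N := N) (δ := δ) (δK := δK) (δ' := δM1) (δ2 := δM2)
      (fun i P Q e hP h => h1 i P Q e hP h) (fun i P Q e hP h => h2 i P Q e hP h)
      hq ⟨hh, hlin⟩ (g := g) (f := f) hgen lam (fun j => (hα j).1) α
      (fun j => (semi_iff N δK _ _).1 (hα j).2)
  exact ⟨j, j', hlt, ⟨s, hs, (semi_iff N δK _ _).2 h4⟩, s', hs', (semi_iff N δK _ _).2 h5⟩

end Pool.Agent.Results.MP_beb4a5_ag.FinitelyManyModels
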